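import Mathlib
import Pool.Agent.H818R2.Ram.Ratio
import Pool.Agent.Results.MP_28724c_co.DiagUpper3

set_option autoImplicit false

/-!
# MP_d67c98_co: the ratios `R(k+1,k) / R(k,k)`

`Arrows n k l` (every red/blue colouring of the edges of the complete graph on `n` vertices has a red
`K_k` or a blue `K_l`) and `R k l` (the least such `n`) are in `Pool/Agent/H818R2/Ram/Defs.lean`.
-/

namespace Pool.Agent.Results.MP_d67c98_co.RatioBounds

open Finset Filter Pool.Agent.H818R2.Ram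

/-- `R(k+1,k) / R(k,k)` -/
noncomputable def rho (k : ℕ) : ℝ := (R (k + 1) k : ℝ) / R k k

theorem rho_ge {k : ℕ} (hk : 1 ≤ k) : 1 ≤ rho k := by
  have h1 : (0 : ℝ) < R k k := by exact_mod_cast R_pos (k := k) (l := k) hk hk
  unfold rho
  rw [le_div_iff₀ h1, one_mul]
  exact_mod_cast R_mono (Nat.le_succ k) le_rfl

theorem rho_le {k : ℕ} (hk : 1 ≤ k) : rho k ≤ 26 := by
  have h1 : (0 : ℝ) < R k k := by exact_mod_cast R_pos (k := k) (l := k) hk hk
  unfold rho
  rw [div_le_iff₀ h1, R_symm (k + 1) k]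
  exact_mod_cast diag_ratio hk

theorem sum_log_rho {n : ℕ} (hn : 1 ≤ n) :
    ∑ k ∈ Ico 1 n, Real.log (rho k) ≤ Real.log (R n n) := by
  induction n, hn using Nat.le_induction with
  | base =>
    rw [Finset.Ico_self, Finset.sum_empty]
    apply Real.log_nonneg
    exact_mod_cast R_pos (k := 1) (l := 1) Nat.one_pos Nat.one_pos
  | succ n hn ih =>
    rw [Finset.sum_Ico_succ_top hn]
    have h1 : (0 : ℝ) < R n n := by exact_mod_cast R_pos (k := n) (l := n) hn hn
    have h2 : (0 : ℝ) < R (n + 1) n := by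
      exact_mod_cast R_pos (k := n + 1) (l := n) (by omega) hn
    have h3 : Real.log (rho n) = Real.log (R (n + 1) n) - Real.log (R n n) := by
      unfold rho
      rw [Real.log_div h2.ne' h1.ne']
    have h4 : Real.log (R (n + 1) n) ≤ Real.log (R (n + 1) (n + 1)) := by
      apply Real.log_le_log h2
      exact_mod_cast R_mono le_rfl (Nat.le_succ n)
    linarith

theorem R_lt : ∃ K : ℕ, ∀ k : ℕ, K ≤ k → (R k k : ℝ) < (3.305 : ℝ) ^ k := by
  obtain ⟨K, hK⟩ := MP_28724c_co.DiagUpper3.result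
  refine ⟨K, fun k hk => ?_⟩
  obtain ⟨⟨_, h1⟩, h2⟩ := hK k hk
  refine lt_of_le_of_lt ?_ h2
  have : R k k ≤ MP_28724c_co.DiagUpper3.R k := R_le h1
  exact_mod_cast this

theorem count : ∃ n₀ : ℕ, ∀ n : ℕ, n₀ ≤ n → ∀ c : ℝ, 1 < c →
    (((Ico 1 n).filter (fun k => c ≤ rho k)).card : ℝ) < n * (Real.log 3.305 / Real.log c) := by
  obtain ⟨K, hK⟩ := R_lt
  refine ⟨max K 1, ?_⟩
  intro n hn c hc
  have hn1 : 1 ≤ n := (le_max_right _ _).trans hn
  have h1 := hK n ((le_max_left _ _).trans hn)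
  have hR : (0 : ℝ) < R n n := by exact_mod_cast R_pos (k := n) (l := n) hn1 hn1
  have h2 : Real.log (R n n) < n * Real.log 3.305 := by
    have := Real.log_lt_log hR h1
    rwa [Real.log_pow] at this
  have hlc : 0 < Real.log c := Real.log_pos hc
  have h3 := sum_log_rho hn1
  have h4 : (((Ico 1 n).filter (fun k => c ≤ rho k)).card : ℝ) * Real.log c ≤
      ∑ k ∈ Ico 1 n, Real.log (rho k) := by
    calc (((Ico 1 n).filter (fun k => c ≤ rho k)).card : ℝ) * Real.log c
        = ∑ k ∈ (Ico 1 n).filter (fun k => c ≤ rho k), Real.log c := by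
          rw [Finset.sum_const, nsmul_eq_mul]
      _ ≤ ∑ k ∈ (Ico 1 n).filter (fun k => c ≤ rho k), Real.log (rho k) := by
          apply Finset.sum_le_sum
          intro k hk
          exact Real.log_le_log (by linarith) (Finset.mem_filter.mp hk).2
      _ ≤ ∑ k ∈ Ico 1 n, Real.log (rho k) := by
          apply Finset.sum_le_sum_of_subset_of_nonneg (Finset.filter_subset _ _)
          intro k hk _
          exact Real.log_nonneg (rho_ge (Finset.mem_Ico.mp hk).1)
  rw [mul_div_assoc', lt_div_iff₀ hlc]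
  linarith

theorem limit_le (L : ℝ) (hL : Tendsto rho atTop (nhds L)) : L ≤ 3.305 := by
  by_contra hcon
  push Not at hcon
  obtain ⟨c, hc1, hc2⟩ := exists_between hcon
  have hev := hL.eventually_const_le hc2
  obtain ⟨k₁, hk₁⟩ := Filter.eventually_atTop.mp hev
  obtain ⟨n₀, hn₀⟩ := count
  have hc : 1 < c := by linarith
  have hlog : Real.log 3.305 < Real.log c := Real.log_lt_log (by norm_num) hc1
  have hlc : 0 < Real.log c := Real.log_pos hc
  set q : ℝ := Real.log 3.305 / Real.log c with hq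
  have hq1 : q < 1 := by rw [hq, div_lt_one hlc]; exact hlog
  obtain ⟨m, hm⟩ := exists_nat_gt (((k₁ : ℝ) + 1) / (1 - q))
  set n := max (max n₀ m) (k₁ + 1) with hn
  have h1 := hn₀ n ((le_max_left _ _).trans (le_max_left _ _)) c hc
  have h2 : n - (k₁ + 1) ≤ ((Ico 1 n).filter (fun k => c ≤ rho k)).card := by
    rw [← Nat.card_Ico (k₁ + 1) n]
    apply Finset.card_le_card
    intro k hk
    rw [Finset.mem_Ico] at hk
    rw [Finset.mem_filter, Finset.mem_Ico]
    exact ⟨⟨by omega, hk.2⟩, hk₁ k (by omega)⟩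
  have h3 : k₁ + 1 ≤ n := le_max_right _ _
  have h4 : (n : ℝ) - ((k₁ : ℝ) + 1) ≤ ((Ico 1 n).filter (fun k => c ≤ rho k)).card := by
    have h5 : n ≤ ((Ico 1 n).filter (fun k => c ≤ rho k)).card + (k₁ + 1) := by omega
    have h6 : (n : ℝ) ≤ ((Ico 1 n).filter (fun k => c ≤ rho k)).card + ((k₁ : ℝ) + 1) := by
      exact_mod_cast h5
    linarith
  have h7 : (m : ℝ) ≤ n := by
    have : m ≤ n := (le_max_right _ _).trans (le_max_left _ _)
    exact_mod_cast this
  have hpos : 0 < 1 - q := by linarith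
  rw [div_lt_iff₀ hpos] at hm
  have h8 : (m : ℝ) * (1 - q) ≤ n * (1 - q) := mul_le_mul_of_nonneg_right h7 hpos.le
  rw [← hq] at h1
  linarith

/-- **Main result.** -/
theorem result :
    (∀ k l : ℕ, IsLeast {n : ℕ | Arrows n k l} (R k l)) ∧
    (∀ k : ℕ, 1 ≤ k → 1 ≤ rho k ∧ rho k ≤ 26) ∧
    (∃ n₀ : ℕ, ∀ n : ℕ, n₀ ≤ n → ∀ c : ℝ, 1 < c →
      (((Ico 1 n).filter (fun k => c ≤ rho k)).card : ℝ) < n * (Real.log 3.305 / Real.log c)) ∧
    (∀ L : ℝ, Tendsto rho atTop (nhds L) → L ≤ 3.305) :=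
  ⟨fun k l => ⟨arrows_R k l, fun _ hn => R_le hn⟩, fun _ hk => ⟨rho_ge hk, rho_le hk⟩, count,
    limit_le⟩

end Pool.Agent.Results.MP_d67c98_co.RatioBounds
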